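import Pool.Agent.H717.PR.Stm

/-!
# From marks to the tree
-/

set_option autoImplicit false

namespace Pool.Agent.H671.PR

open Pool.Agent.NPC Pool.Agent.H622R2 Pool.Agent.V11227.BT
open Pool.Agent.TH667.PCG (LeafTree)
open Pool.Agent.H717.PR

/-- The stems. -/
def IsStem (k : ℕ) : Prop := k = 1 ∨ k = 3 ∨ k = 6 ∨ k = 8 ∨ k = 10 ∨ k = 12

theorem stemNo_isStem {k : ℕ} (h0 : k ≠ 0) (h5 : k ≠ 5) (h13 : k ≤ 13) : IsStem (stemNo k) := by
  unfold IsStem stemNo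
  have : k = 1 ∨ k = 2 ∨ k = 3 ∨ k = 4 ∨ k = 6 ∨ k = 7 ∨ k = 8 ∨ k = 9 ∨ k = 10 ∨ k = 11 ∨
      k = 12 ∨ k = 13 := by omega
  rcases this with h | h | h | h | h | h | h | h | h | h | h | h <;> subst h <;> decide

theorem stemNo_stem {k : ℕ} (h : IsStem k) : stemNo k = k := by
  rcases h with h | h | h | h | h | h <;> subst h <;> decide

theorem stemNo_le4 {k : ℕ} (h0 : k ≠ 0) (h5 : k ≠ 5) (h13 : k ≤ 13) :
    (stemNo k ≤ 4 ↔ k ≤ 4) ∧ (stemNo k ≤ 9 ↔ k ≤ 9) ∧ 1 ≤ stemNo k ∧ stemNo k ≤ 13 ∧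
      (5 ≤ stemNo k ↔ 5 ≤ k) := by
  unfold stemNo
  have : k = 1 ∨ k = 2 ∨ k = 3 ∨ k = 4 ∨ k = 6 ∨ k = 7 ∨ k = 8 ∨ k = 9 ∨ k = 10 ∨ k = 11 ∨
      k = 12 ∨ k = 13 := by omega
  rcases this with h | h | h | h | h | h | h | h | h | h | h | h <;> subst h <;> decide

theorem ol_stem (S τ : ℤ) (α β ν : Lb → ℤ) (w : VL) (h0 : w.1 ≠ 0) (h5 : w.1 ≠ 5)
    (h13 : w.1 ≤ 13) : ol S τ α β ν (stemNo w.1, w.2) = ol S τ α β ν w := by
  obtain ⟨h4, h9, -, -, -⟩ := stemNo_le4 h0 h5 h13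
  simp only [ol, h4, h9]

theorem or_stem (S τ : ℤ) (α β ν : Lb → ℤ) (w : VL) (h0 : w.1 ≠ 0) (h5 : w.1 ≠ 5)
    (h13 : w.1 ≤ 13) : or S τ α β ν (stemNo w.1, w.2) = or S τ α β ν w := by
  obtain ⟨h4, h9, -, -, -⟩ := stemNo_le4 h0 h5 h13
  simp only [Pool.Agent.H717.PR.or, h4, h9]

theorem stem_mem (h1 : S_mem) (I : Inst) (w : VL) (hw : w ∈ vs I) (h0 : w.1 ≠ 0)
    (h5 : w.1 ≠ 5) : (stemNo w.1, w.2) ∈ vs I := by
  rw [h1] at hw ⊢
  rcases hw with ⟨h, -⟩ | ⟨ha, hb, hc⟩ | ⟨ha, hb, hc⟩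
  · exact absurd h h0
  · obtain ⟨h4, h9, h1', h13', -⟩ := stemNo_le4 h0 h5 (by omega)
    exact Or.inr (Or.inl ⟨h1', h4.2 hb, hc⟩)
  · obtain ⟨h4, h9, h1', h13', h5'⟩ := stemNo_le4 h0 h5 hb
    exact Or.inr (Or.inr ⟨h5'.2 ha, h13', hc⟩)

theorem le13 (h1 : S_mem) (I : Inst) (w : VL) (hw : w ∈ vs I) : w.1 ≤ 13 := by
  rw [h1] at hw
  rcases hw with ⟨h, -⟩ | ⟨ha, hb, hc⟩ | ⟨ha, hb, hc⟩ <;> omega

theorem abs_iff (H τ : ℝ) (x : ℤ) (τ' : ℤ) (h : τ = (τ' : ℝ)) :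
    (2 * H - 2 * τ ≤ 2 * H + 2 * (x : ℝ) ∧ 2 * H + 2 * (x : ℝ) ≤ 2 * H + 2 * τ) ↔ |x| ≤ τ' := by
  rw [abs_le, h]
  constructor
  · rintro ⟨ha, hb⟩
    constructor
    · have : (-τ' : ℝ) ≤ (x : ℝ) := by linarith
      exact_mod_cast this
    · have : (x : ℝ) ≤ (τ' : ℝ) := by linarith
      exact_mod_cast this
  · rintro ⟨ha, hb⟩
    have ha' : (-τ' : ℝ) ≤ (x : ℝ) := by exact_mod_cast ha
    have hb' : (x : ℝ) ≤ (τ' : ℝ) := by exact_mod_cast hb
    constructor <;> linarith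

theorem t_yes (h1 : S_mem) (h2 : S_cc) (h3 : S_qc1) (h4 : S_qc2) (h5 : S_qc3) (h6 : S_len)
    (h7 : S_qq) (h8 : S_real) : S_yes := by
  classical
  intro I α β ν τ N hg hm
  obtain ⟨⟨n, hn2, hn⟩, -⟩ := hg
  have h0I : (0 : ℕ) ∈ I.1 := by rw [hn]; simp; omega
  have hb0 : ((0, 0) : Lb) ∈ base I := by
    unfold base
    simp only [List.mem_append, List.mem_map]
    exact Or.inl ⟨0, h0I, rfl⟩
  have hb1 : ((1, 0) : Lb) ∈ base I := by
    unfold base
    simp only [List.mem_append, List.mem_map]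
    exact Or.inr (Or.inl ⟨0, h0I, rfl⟩)
  have hτ := hm.pos
  have hN := hm.nu1 _ hb0
  obtain ⟨S, hS⟩ : ∃ S : ℤ, S = 2 * N + 10 * τ := ⟨_, rfl⟩
  have hS1 : 2 * N + 10 * τ ≤ S := by omega
  have hSpos : 0 < S := by omega
  -- the stems
  let V := {w : VL // w ∈ vs I}
  let R := {s : VL // s ∈ vs I ∧ IsStem s.1}
  have : Finite V := by
    have : Finite {w : VL // w ∈ (vs I).toFinset} := inferInstance
    exact Finite.of_injective (fun w : V => (⟨w.1, List.mem_toFinset.2 w.2⟩ :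
      {w : VL // w ∈ (vs I).toFinset})) (fun a b hab => Subtype.ext (by simpa using hab))
  have : Finite R := Finite.of_injective (fun s : R => (⟨s.1, s.2.1⟩ : V))
      (fun a b hab => Subtype.ext (by simpa using hab))
  let st : V → Option R := fun w => if h : w.1.1 = 0 ∨ w.1.1 = 5 then none else
    some ⟨(stemNo w.1.1, w.1.2), stem_mem h1 I w.1 w.2 (fun h' => h (Or.inl h'))
      (fun h' => h (Or.inr h')), stemNo_isStem (fun h' => h (Or.inl h'))
      (fun h' => h (Or.inr h')) (le13 h1 I w.1 w.2)⟩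
  have hst0 : ∀ w : V, (w.1.1 = 0 ∨ w.1.1 = 5) → st w = none := fun w hw => dif_pos hw
  have hst0' : ∀ w : V, st w = none → (w.1.1 = 0 ∨ w.1.1 = 5) := by
    intro w hw
    by_contra hcon
    have : st w = some _ := dif_neg hcon
    rw [this] at hw
    exact absurd hw (by simp)
  have hst1 : ∀ (w : V) (s : R), st w = some s → (w.1.1 ≠ 0 ∧ w.1.1 ≠ 5) ∧
      s.1 = (stemNo w.1.1, w.1.2) := by
    intro w s hs
    by_cases hw : w.1.1 = 0 ∨ w.1.1 = 5
    · rw [hst0 w hw] at hs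
      exact absurd hs (by simp)
    · have hw' : st w = some _ := dif_neg hw
      rw [hw'] at hs
      refine ⟨⟨fun h => hw (Or.inl h), fun h => hw (Or.inr h)⟩, ?_⟩
      have := Option.some_injective _ hs
      rw [← this]
  have hstem : ∀ s : R, ol S τ α β ν s.1 < or S τ α β ν s.1 ∧
      τ < or S τ α β ν s.1 - ol S τ α β ν s.1 := by
    intro s
    have h0 : s.1.1 ≠ 0 := by
      intro h
      have := s.2.2
      rw [h] at this
      exact absurd this (by unfold IsStem; decide)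
    have h5' : s.1.1 ≠ 5 := by
      intro h
      have := s.2.2
      rw [h] at this
      exact absurd this (by unfold IsStem; decide)
    have := h6 I α β ν τ N S hm hS1 s.1 s.2.1 h0 h5'
    exact ⟨by omega, this⟩
  obtain ⟨t, H, hKH, d1, d2, d3, d4⟩ := h8 V R st (fun w => lf S α β ν w.1)
    (fun w => rt S α β ν w.1) (fun s => ol S τ α β ν s.1) (fun s => or S τ α β ν s.1)
    (τ : ℝ) (fun s => (hstem s).1) (by
      intro s
      refine ⟨⟨s.1, s.2.1⟩, ?_⟩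
      have hk := s.2.2
      have hno : ¬ (s.1.1 = 0 ∨ s.1.1 = 5) := by
        intro h
        rcases h with h | h <;> rw [h] at hk <;> exact absurd hk (by unfold IsStem; decide)
      have hw' : st ⟨s.1, s.2.1⟩ = some _ := dif_neg hno
      rw [hw']
      congr 1
      apply Subtype.ext
      exact Prod.ext (stemNo_stem hk) rfl) (by
      have hv : ((0, ((1, 0), (1, 0))) : VL) ∈ vs I := by
        rw [h1]
        exact Or.inl ⟨rfl, rfl, hb1⟩
      have hw : ((0, ((0, 0), (0, 0))) : VL) ∈ vs I := by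
        rw [h1]
        exact Or.inl ⟨rfl, rfl, hb0⟩
      refine ⟨⟨_, hv⟩, ⟨_, hw⟩, hst0 _ (Or.inl rfl), hst0 _ (Or.inl rfl), ?_⟩
      simp only [lf, rt, if_true]
      have hn := hm.near (1, 0) hb1 (0, 0) hb0 (by simp [Pool.Agent.H717.PR.near, nearB])
      intro he
      have he' : S * (α (1, 0) + β (1, 0) - α (0, 0) - β (0, 0)) = 0 := by linarith
      rcases mul_eq_zero.1 he' with h | h
      · omega
      · omega)
  have hcomm : ∀ u v : V, t.dist u v = t.dist v u := fun u v =>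
    Pool.Agent.TH667.PCG.tdist_comm _ _ _ _
  refine ⟨t, 2 * H - 2 * (τ : ℝ), 2 * H + 2 * (τ : ℝ), by linarith, ?_, ?_⟩
  · have : (1 : ℝ) ≤ (τ : ℝ) := by exact_mod_cast hτ
    linarith
  -- the mixed case
  have mixed : ∀ u v : V, ∀ s : R, st u = some s → st v = none →
      ((adj u.1 v.1 = true ∨ adj v.1 u.1 = true) ↔
        (2 * H - 2 * (τ : ℝ) ≤ t.dist u v ∧ t.dist u v ≤ 2 * H + 2 * (τ : ℝ))) := by
    intro u v s hs hv
    obtain ⟨⟨hu0, hu5⟩, hse⟩ := hst1 u s hs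
    have hv' := hst0' v hv
    have h13 := le13 h1 I u.1 u.2
    rw [d2 u v s hs hv]
    rw [abs_iff H τ _ τ rfl]
    rw [hse, ol_stem S τ α β ν u.1 hu0 hu5 h13, or_stem S τ α β ν u.1 hu0 hu5 h13]
    by_cases c1 : u.1.1 ≤ 4
    · exact h3 I α β ν τ N S hm hS1 u.1 u.2 v.1 v.2 (by omega) c1 hv'
    · by_cases c2 : u.1.1 ≤ 9
      · exact h4 I α β ν τ N S hm hS1 u.1 u.2 v.1 v.2 (by omega) c2 hv'
      · exact h5 I α β ν τ N S hm hS1 u.1 u.2 v.1 v.2 (by omega) h13 hv'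
  have key : ∀ u v : V, u ≠ v → ((adj u.1 v.1 = true ∨ adj v.1 u.1 = true) ↔
        (2 * H - 2 * (τ : ℝ) ≤ t.dist u v ∧ t.dist u v ≤ 2 * H + 2 * (τ : ℝ))) := by
    intro u v huv
    have huv' : u.1 ≠ v.1 := fun h => huv (Subtype.ext h)
    rcases hu : st u with _ | s
    · rcases hv : st v with _ | s'
      · rw [d1 u v huv hu hv, abs_iff H τ _ τ rfl]
        exact h2 I α β ν τ N S hm hS1 u.1 u.2 v.1 v.2 huv' (hst0' u hu) (hst0' v hv)
      · rw [hcomm u v, or_comm]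
        exact mixed v u s' hv hu
    · rcases hv : st v with _ | s'
      · exact mixed u v s hu hv
      · obtain ⟨⟨hu0, hu5⟩, hse⟩ := hst1 u s hu
        obtain ⟨⟨hv0, hv5⟩, hse'⟩ := hst1 v s' hv
        have h13 := le13 h1 I u.1 u.2
        have h13' := le13 h1 I v.1 v.2
        rw [h7 u.1 v.1 h13 h13' hu0 hu5 hv0 hv5 huv']
        by_cases hss : s = s'
        · subst hss
          rw [d3 u v s huv hu hv]
          have e : (stemNo u.1.1, u.1.2) = (stemNo v.1.1, v.1.2) := hse.symm.trans hse'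
          rw [Prod.mk.injEq] at e
          have hτr : (1 : ℝ) ≤ (τ : ℝ) := by exact_mod_cast hτ
          exact ⟨fun _ => ⟨by linarith, by linarith⟩, fun _ => e⟩
        · have hd := d4 u v s s' hss hu hv
          have hl1 := (hstem s).2
          have hl2 := (hstem s').2
          have hl3 : 2 * τ < (or S τ α β ν s.1 - ol S τ α β ν s.1) +
              (or S τ α β ν s'.1 - ol S τ α β ν s'.1) := by omega
          have hl4 : 2 * (τ : ℝ) < (((or S τ α β ν s.1 - ol S τ α β ν s.1) +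
              (or S τ α β ν s'.1 - ol S τ α β ν s'.1) : ℤ) : ℝ) := by exact_mod_cast hl3
          constructor
          · rintro ⟨e1, e2⟩
            exfalso
            apply hss
            apply Subtype.ext
            rw [hse, hse', e1, e2]
          · rintro ⟨-, e2⟩
            exfalso
            linarith
  ext u v
  change (u ≠ v ∧ (adj u.1 v.1 = true ∨ adj v.1 u.1 = true)) ↔
    (u ≠ v ∧ 2 * H - 2 * (τ : ℝ) ≤ t.dist u v ∧ t.dist u v ≤ 2 * H + 2 * (τ : ℝ))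
  constructor
  · rintro ⟨ha, hb⟩
    exact ⟨ha, (key u v ha).1 hb⟩
  · rintro ⟨ha, hb⟩
    exact ⟨ha, (key u v ha).2 hb⟩

end Pool.Agent.H671.PR
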